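import Pool.Agent.helper82.LEQ.Spec

set_option autoImplicit false

namespace LEQ

open scoped BigOperators
open QS (Lef EAb)

/-- the only nontrivial chain condition fails -/
lemma W5_coprime (hXB : XB_stmt) (hW1 : W1_stmt) (K : Type) [Group K] [Finite K] (p : ℕ)
    (hp : p.Prime) (hK : ¬ p ∣ Nat.card K) (k : K) : Lef K p k = -1 := by
  haveI : Fact p.Prime := ⟨hp⟩
  rw [hW1 K p hp k, hXB]
  have h : FS (fun P : Subgroup K => P ≠ ⊥ ∧ IsPGroup p P ∧ Stb k P) = ∅ := by
    rw [Finset.eq_empty_iff_forall_notMem]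
    intro P hP
    rw [mem_FS] at hP
    obtain ⟨h1, h2, _⟩ := hP
    obtain ⟨n, hn⟩ := IsPGroup.iff_card.1 h2
    rcases Nat.eq_zero_or_pos n with h3 | h3
    · subst h3
      rw [pow_zero] at hn
      exact h1 (Subgroup.card_eq_one.1 hn)
    · apply hK
      have h4 : Nat.card P ∣ Nat.card K := Subgroup.card_subgroup_dvd_card P
      rw [hn] at h4
      exact (dvd_pow_self p (by omega)).trans h4
  rw [h, Finset.sum_empty]
  norm_num

/-- a sum over `M` of a function of the class -/
lemma W5_fiber (M : Type) [Group M] [Finite M] (P : Subgroup M) [P.Normal] (f : M ⧸ P → ℤ)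
    (h0 : ∑ k ∈ FS (fun _ : M ⧸ P => True), f k = 0) :
    ∑ h ∈ FS (fun _ : M => True), f (h : M ⧸ P) = 0 := by
  classical
  letI : Fintype M := Fintype.ofFinite M
  letI : Fintype (M ⧸ P) := Fintype.ofFinite _
  have e1 : FS (fun _ : M => True) = Finset.univ := by
    ext x; rw [mem_FS]; simp
  have e2 : FS (fun _ : M ⧸ P => True) = Finset.univ := by
    ext x; rw [mem_FS]; simp
  rw [e2] at h0
  rw [e1]
  rw [← Finset.sum_fiberwise (s := (Finset.univ : Finset M)) (g := fun h : M => (h : M ⧸ P))]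
  have h1 : ∀ k : M ⧸ P, ∑ h ∈ (Finset.univ.filter fun h : M => ((h : M ⧸ P) = k)),
      f (h : M ⧸ P) =
      ((Finset.univ.filter fun h : M => ((h : M ⧸ P) = ((1 : M) : M ⧸ P))).card : ℤ) * f k := by
    intro k
    have h2 : ∑ h ∈ (Finset.univ.filter fun h : M => ((h : M ⧸ P) = k)), f (h : M ⧸ P) =
        ∑ h ∈ (Finset.univ.filter fun h : M => ((h : M ⧸ P) = k)), f k := by
      refine Finset.sum_congr rfl fun h hh => ?_
      rw [(Finset.mem_filter.1 hh).2]
    rw [h2, Finset.sum_const, nsmul_eq_mul]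
    congr 2
    obtain ⟨k', hk'⟩ := QuotientGroup.mk_surjective k
    exact MonoidHom.card_fiber_eq_of_mem_range (QuotientGroup.mk' P) ⟨k', hk'⟩ ⟨1, rfl⟩
  rw [Finset.sum_congr rfl fun k _ => h1 k, ← Finset.mul_sum, h0, mul_zero]

/-- Sylow subgroups and normaliser quotients -/
lemma W5_sylow (G : Type) [Group G] [Finite G] (p : ℕ) [Fact p.Prime] (P : Subgroup G)
    (hP : IsPGroup p P) :
    ¬ p ∣ Nat.card (Subgroup.normalizer (P : Set G) ⧸
      P.subgroupOf (Subgroup.normalizer (P : Set G))) ↔ ∃ S : Sylow p G, (S : Subgroup G) = P := by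
  constructor
  · intro h
    obtain ⟨n, hn⟩ := IsPGroup.iff_card.1 hP
    have h1 : ¬ p ^ (n + 1) ∣ Nat.card G := fun h2 =>
      h (Sylow.prime_dvd_card_quotient_normalizer h2 hn)
    obtain ⟨S, hS⟩ := hP.exists_le_sylow
    refine ⟨S, ?_⟩
    obtain ⟨m, hm⟩ := IsPGroup.iff_card.1 S.isPGroup'
    have h2 : m ≤ n := by
      by_contra h3
      push Not at h3
      apply h1
      have h4 : Nat.card S ∣ Nat.card G := Subgroup.card_subgroup_dvd_card (S : Subgroup G)
      rw [hm] at h4
      exact (pow_dvd_pow p h3).trans h4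
    symm
    apply Subgroup.eq_of_le_of_card_ge hS
    rw [hn]
    show Nat.card S ≤ _
    rw [hm]
    exact Nat.pow_le_pow_right (Fact.out : p.Prime).pos h2
  · rintro ⟨S, rfl⟩ h
    apply S.not_dvd_index
    refine h.trans ?_
    have h1 : (S : Subgroup G).relIndex (Subgroup.normalizer ((S : Subgroup G) : Set G)) ∣
        (S : Subgroup G).index := by
      rw [← Subgroup.relIndex_mul_index (Subgroup.le_normalizer (H := (S : Subgroup G)))]
      exact dvd_mul_right _ _
    exact h1

lemma W5_count (G : Type) [Group G] [Finite G] (p : ℕ) [Fact p.Prime] (hd : p ∣ Nat.card G) :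
    ∑ P ∈ FS (fun P : Subgroup G => (P ≠ ⊥ ∧ IsPGroup p P) ∧ ∃ S : Sylow p G, (S : Subgroup G) = P),
      (Nat.card (Subgroup.normalizer (P : Set G)) : ℤ) = Nat.card G := by
  classical
  letI : Fintype (Sylow p G) := Fintype.ofFinite _
  have e : FS (fun P : Subgroup G => (P ≠ ⊥ ∧ IsPGroup p P) ∧
      ∃ S : Sylow p G, (S : Subgroup G) = P) =
      Finset.univ.image (fun S : Sylow p G => (S : Subgroup G)) := by
    ext P
    rw [mem_FS, Finset.mem_image]
    constructor
    · rintro ⟨_, S, hS⟩
      exact ⟨S, Finset.mem_univ _, hS⟩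
    · rintro ⟨S, _, rfl⟩
      exact ⟨⟨S.ne_bot_of_dvd_card hd, S.isPGroup'⟩, S, rfl⟩
  rw [e, Finset.sum_image (fun S _ T _ h => Sylow.ext h)]
  have h1 : ∀ S : Sylow p G, Nat.card (Sylow p G) *
      Nat.card (Subgroup.normalizer ((S : Subgroup G) : Set G)) = Nat.card G := by
    intro S
    have h0 : Nat.card (Sylow p G) =
        (Subgroup.normalizer ((S : Subgroup G) : Set G)).index := S.card_eq_index_normalizer
    rw [h0, Subgroup.index_mul_card]
  have h2 : 0 < Nat.card (Sylow p G) := Nat.card_pos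
  have h3 : ∀ S : Sylow p G, Nat.card (Subgroup.normalizer ((S : Subgroup G) : Set G)) =
      Nat.card G / Nat.card (Sylow p G) := by
    intro S
    rw [← h1 S, Nat.mul_div_cancel_left _ h2]
  rw [Finset.sum_congr rfl fun S _ => by rw [h3 S]]
  rw [Finset.sum_const, Finset.card_univ, ← Nat.card_eq_fintype_card, nsmul_eq_mul]
  have h4 := h1 (Classical.arbitrary (Sylow p G))
  rw [h3] at h4
  exact_mod_cast h4

lemma W5_term (hW3 : W3_stmt) (hW4 : W4_stmt) (G : Type) [Group G] [Finite G] (p : ℕ)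
    (hp : p.Prime) (P : Subgroup G) (hP : IsPGroup p P)
    (hn : (P.subgroupOf (Subgroup.normalizer (P : Set G))).Normal)
    (h : Subgroup.normalizer (P : Set G)) :
    XS (fun y : Subgroup G => (y ≠ ⊥ ∧ IsPGroup p y ∧ Stb (h : G) y) ∧ P < y) =
      Lef (Subgroup.normalizer (P : Set G) ⧸ P.subgroupOf (Subgroup.normalizer (P : Set G))) p
        (h : Subgroup.normalizer (P : Set G) ⧸
          P.subgroupOf (Subgroup.normalizer (P : Set G))) := by
  have e : (fun y : Subgroup G => (y ≠ ⊥ ∧ IsPGroup p y ∧ Stb (h : G) y) ∧ P < y) =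
      (fun y : Subgroup G => P < y ∧ IsPGroup p y ∧ Stb (h : G) y) := by
    funext y
    apply propext
    constructor
    · rintro ⟨⟨_, h2, h3⟩, h4⟩
      exact ⟨h4, h2, h3⟩
    · rintro ⟨h4, h2, h3⟩
      exact ⟨⟨fun h5 => by rw [h5] at h4; exact not_lt_bot h4, h2, h3⟩, h4⟩
  have hst : Stb (h : G) P := Subgroup.mem_normalizer_iff.1 h.2
  rw [e, hW3 G p hp P h hP hst]
  exact hW4 G p hp P _ hP rfl hn h

theorem W5 (hXB : XB_stmt) (hW1 : W1_stmt) (hW3 : W3_stmt) (hW4 : W4_stmt) : W5_stmt := by
  classical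
  have main : ∀ n : ℕ, ∀ (G : Type) [Group G] [Finite G], Nat.card G = n → ∀ p : ℕ, p.Prime →
      p ∣ Nat.card G → ∑ h ∈ FS (fun _ : G => True), Lef G p h = 0 := by
    intro n
    induction n using Nat.strong_induction_on with
    | _ n ih =>
    intro G _ _ hcard p hp hd
    haveI : Fact p.Prime := ⟨hp⟩
    have e1 : ∀ h : G, Lef G p h = -1 - ∑ P ∈ FS (fun P : Subgroup G =>
        P ≠ ⊥ ∧ IsPGroup p P ∧ Stb h P),
        XS (fun y : Subgroup G => (y ≠ ⊥ ∧ IsPGroup p y ∧ Stb h y) ∧ P < y) := by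
      intro h
      rw [hW1 G p hp h]
      exact hXB _ _
    rw [Finset.sum_congr rfl fun h _ => e1 h, Finset.sum_sub_distrib]
    have e2 : ∑ h ∈ FS (fun _ : G => True), ∑ P ∈ FS (fun P : Subgroup G =>
        P ≠ ⊥ ∧ IsPGroup p P ∧ Stb h P),
        XS (fun y : Subgroup G => (y ≠ ⊥ ∧ IsPGroup p y ∧ Stb h y) ∧ P < y) =
        ∑ P ∈ FS (fun P : Subgroup G => P ≠ ⊥ ∧ IsPGroup p P),
        ∑ h ∈ FS (fun h : G => h ∈ Subgroup.normalizer (P : Set G)),
        XS (fun y : Subgroup G => (y ≠ ⊥ ∧ IsPGroup p y ∧ Stb h y) ∧ P < y) := by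
      apply Finset.sum_comm'
      intro h P
      rw [mem_FS, mem_FS, mem_FS, mem_FS]
      constructor
      · rintro ⟨_, h1, h2, h3⟩
        exact ⟨Subgroup.mem_normalizer_iff.2 h3, h1, h2⟩
      · rintro ⟨h3, h1, h2⟩
        exact ⟨trivial, h1, h2, Subgroup.mem_normalizer_iff.1 h3⟩
    have e3 : ∀ P ∈ FS (fun P : Subgroup G => P ≠ ⊥ ∧ IsPGroup p P),
        ∑ h ∈ FS (fun h : G => h ∈ Subgroup.normalizer (P : Set G)),
        XS (fun y : Subgroup G => (y ≠ ⊥ ∧ IsPGroup p y ∧ Stb h y) ∧ P < y) =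
        if (∃ S : Sylow p G, (S : Subgroup G) = P) then
          -(Nat.card (Subgroup.normalizer (P : Set G)) : ℤ) else 0 := by
      intro P hP
      rw [mem_FS] at hP
      obtain ⟨h0, hP⟩ := hP
      have hn : (P.subgroupOf (Subgroup.normalizer (P : Set G))).Normal :=
        Subgroup.normal_in_normalizer
      -- the sum over the subtype
      have e4 : ∑ h ∈ FS (fun h : G => h ∈ Subgroup.normalizer (P : Set G)),
          XS (fun y : Subgroup G => (y ≠ ⊥ ∧ IsPGroup p y ∧ Stb h y) ∧ P < y) =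
          ∑ h ∈ FS (fun _ : Subgroup.normalizer (P : Set G) => True),
          Lef (Subgroup.normalizer (P : Set G) ⧸ P.subgroupOf (Subgroup.normalizer (P : Set G))) p
            (h : Subgroup.normalizer (P : Set G) ⧸
              P.subgroupOf (Subgroup.normalizer (P : Set G))) := by
        symm
        refine Finset.sum_bij (fun h _ => (h : G)) ?_ ?_ ?_ ?_
        · intro h _
          rw [mem_FS]
          exact h.2
        · intro h _ h' _ he
          exact Subtype.ext he
        · intro h hh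
          rw [mem_FS] at hh
          exact ⟨⟨h, hh⟩, by rw [mem_FS]; trivial, rfl⟩
        · intro h _
          exact (W5_term hW3 hW4 G p hp P hP hn h).symm
      rw [e4]
      by_cases hS : ∃ S : Sylow p G, (S : Subgroup G) = P
      · rw [if_pos hS]
        have h1 := (W5_sylow G p P hP).2 hS
        rw [Finset.sum_congr rfl fun h _ => W5_coprime hXB hW1 _ p hp h1 _]
        rw [Finset.sum_const, nsmul_eq_mul]
        have h2 : (FS (fun _ : Subgroup.normalizer (P : Set G) => True)).card =
            Nat.card (Subgroup.normalizer (P : Set G)) := by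
          letI : Fintype (Subgroup.normalizer (P : Set G)) := Fintype.ofFinite _
          rw [Nat.card_eq_fintype_card, ← Finset.card_univ]
          congr 1
          ext x; rw [mem_FS]; simp
        rw [h2]
        ring
      · rw [if_neg hS]
        have h1 : p ∣ Nat.card (Subgroup.normalizer (P : Set G) ⧸
            P.subgroupOf (Subgroup.normalizer (P : Set G))) := by
          by_contra h2
          exact hS ((W5_sylow G p P hP).1 h2)
        apply W5_fiber
        refine ih _ ?_ _ rfl p hp h1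
        have h2 := Subgroup.card_eq_card_quotient_mul_card_subgroup
          (P.subgroupOf (Subgroup.normalizer (P : Set G)))
        have h3 : Nat.card (P.subgroupOf (Subgroup.normalizer (P : Set G))) = Nat.card P :=
          Nat.card_congr (Subgroup.subgroupOfEquivOfLe Subgroup.le_normalizer).toEquiv
        have h4 : Nat.card (Subgroup.normalizer (P : Set G)) ≤ Nat.card G :=
          Nat.le_of_dvd Nat.card_pos (Subgroup.card_subgroup_dvd_card _)
        have h5 : 1 < Nat.card P := by
          rw [Subgroup.one_lt_card_iff_ne_bot]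
          exact h0
        have h6 : 0 < Nat.card (Subgroup.normalizer (P : Set G) ⧸
            P.subgroupOf (Subgroup.normalizer (P : Set G))) := Nat.card_pos
        rw [h3] at h2
        rw [← hcard]
        refine lt_of_lt_of_le ?_ h4
        rw [h2]
        exact (Nat.lt_mul_iff_one_lt_right h6).2 h5
    rw [e2, Finset.sum_congr rfl e3]
    have e5 : ∑ P ∈ FS (fun P : Subgroup G => P ≠ ⊥ ∧ IsPGroup p P),
        (if (∃ S : Sylow p G, (S : Subgroup G) = P) then
          -(Nat.card (Subgroup.normalizer (P : Set G)) : ℤ) else 0) = -(Nat.card G : ℤ) := by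
      rw [← Finset.sum_filter, Finset.sum_neg_distrib]
      congr 1
      rw [← W5_count G p hd]
      refine Finset.sum_congr ?_ fun _ _ => rfl
      ext P
      rw [Finset.mem_filter, mem_FS, mem_FS]
    rw [e5]
    have e6 : (FS (fun _ : G => True)).card = Nat.card G := by
      letI : Fintype G := Fintype.ofFinite _
      rw [Nat.card_eq_fintype_card, ← Finset.card_univ]
      congr 1
      ext x; rw [mem_FS]; simp
    rw [Finset.sum_const, e6, nsmul_eq_mul]
    ring
  intro G _ _ p hp hd
  exact main _ G rfl p hp hd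

end LEQ
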